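import Pool.Agent.Helper38.RE.Upper2
import Pool.Agent.Helper38.RE.C1
import Pool.Agent.Helper38.RE.C2
import Pool.Agent.Helper38.RE.C3
import Pool.Agent.Helper38.RE.K4
import Pool.Agent.Helper38.RE.K5

namespace Pool.Agent.Results.MP_cc4a3b_co.AllK

open Pool.Agent.Helper38.RE

/-- the value for `k ≥ 4` -/
def val (n k : ℕ) : ℕ :=
  if k = 4 then n * (n - 3) / 2
  else if k = 5 then ((n - 3) ^ 2 + 5) / 2
  else (n - k + 2) ^ 2 / 2 + (k - 2) / 2

/-- For every `k ≥ 4` and every `n ≥ 10 ^ 8 * k ^ 8` the maximum number of edges of a connected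
Roman domination excellent graph on `n` vertices with Roman domination number `k` is `val n k`. -/
theorem result (n k : ℕ) (hk : 4 ≤ k) (hn : 10 ^ 8 * k ^ 8 ≤ n) :
    IsGreatest (sizes n k) (val n k) := by
  have hn12 : 12 ≤ n := by
    have h1 : 1 ≤ k ^ 8 := Nat.one_le_pow _ _ (by omega)
    omega
  have par : 2 * (n * (n - 3) / 2) = n * (n - 3) := by
    obtain ⟨t, rfl⟩ : ∃ t, n = t + 3 := ⟨n - 3, by omega⟩
    have e : t + 3 - 3 = t := by omega
    rw [e]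
    refine Nat.mul_div_cancel' ?_
    have h := (Nat.even_mul_succ_self t).two_dvd
    have h2 : (t + 3) * t = t * (t + 1) + 2 * t := by ring
    rw [h2]
    exact dvd_add h (dvd_mul_right _ _)
  by_cases h4 : k = 4
  · subst h4
    have ev : val n 4 = n * (n - 3) / 2 := if_pos rfl
    rw [ev]
    have hu : ∀ e ∈ sizes n 4, e ≤ n * (n - 3) / 2 := by
      rintro e ⟨G, hG, -, hr, rfl⟩
      have := k4_upper (by omega) G fun f hf => hr.2 ⟨f, hf, rfl⟩
      omega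
    obtain ⟨G, hG, hE, hR, he⟩ := k4_mem (n := n) (by omega)
    have hmem : G.edgeSet.ncard ∈ sizes n 4 := ⟨G, hG, hE, hR, rfl⟩
    have h1 := hu _ hmem
    have h2 : G.edgeSet.ncard = n * (n - 3) / 2 := by omega
    exact ⟨h2 ▸ hmem, hu⟩
  by_cases h5 : k = 5
  · subst h5
    have ev : val n 5 = ((n - 3) ^ 2 + 5) / 2 := by
      rw [val, if_neg (by norm_num), if_pos rfl]
    rw [ev]
    have hu : ∀ e ∈ sizes n 5, e ≤ ((n - 3) ^ 2 + 5) / 2 := by
      rintro e ⟨G, hG, -, hr, rfl⟩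
      exact upper5 hn G hG fun f hf => hr.2 ⟨f, hf, rfl⟩
    obtain ⟨G, hG, hE, hR, he⟩ := k5_mem (n := n) (by omega)
    have hmem : G.edgeSet.ncard ∈ sizes n 5 := ⟨G, hG, hE, hR, rfl⟩
    have h1 := hu _ hmem
    have h2 : G.edgeSet.ncard = ((n - 3) ^ 2 + 5) / 2 := by
      obtain ⟨t, rfl⟩ : ∃ t, n = t + 3 := ⟨n - 3, by omega⟩
      have e : t + 3 - 3 = t := by omega
      rw [e] at h1 ⊢
      have h3 : (t + 3) ^ 2 = t ^ 2 + 6 * t + 9 := by ring
      rw [h3] at he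
      have h4 : t ^ 2 + 4 ≤ 2 * G.edgeSet.ncard := by omega
      generalize t ^ 2 = X at *
      omega
    exact ⟨h2 ▸ hmem, hu⟩
  have ev : val n k = (n - k + 2) ^ 2 / 2 + (k - 2) / 2 := by
    rw [val, if_neg h4, if_neg h5]
  rw [ev]
  have hk6 : 6 ≤ k := by omega
  obtain ⟨m, rfl⟩ : ∃ m, k = m + 2 := ⟨k - 2, by omega⟩
  have hbig : 2 * m * (m + 2) + m + 20 ≤ n := by
    have h0 : (m + 2) ^ 2 ≤ (m + 2) ^ 8 := Nat.pow_le_pow_right (by omega) (by norm_num)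
    have h1 : 2 * m * (m + 2) + m + 20 ≤ 10 ^ 8 * (m + 2) ^ 2 := by nlinarith
    have h2 : 10 ^ 8 * (m + 2) ^ 2 ≤ 10 ^ 8 * (m + 2) ^ 8 := Nat.mul_le_mul_left _ h0
    omega
  have hbig' : 4 * m + 20 ≤ n := by nlinarith
  have hmn : m + 2 ≤ n := by omega
  have hmin : ∀ f, IsRDF (cG m n) f → m + 2 ≤ ∑ v, f v := fun f hf =>
    cG_ge (by omega) hbig hf
  have hcon : (cG m n).Connected := cG_connected (by omega) hbig'
  refine ⟨⟨cG m n, hcon, ?_, ⟨?_, ?_⟩, ?_⟩, ?_⟩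
  · intro x
    obtain ⟨f, hf, hfs, hfx⟩ := cG_rdf (m := m) (n := n) (by omega) hbig' x
    exact ⟨f, hf, fun g hg => hfs ▸ hmin g hg, hfx⟩
  · obtain ⟨f, hf, hfs, -⟩ := cG_rdf (m := m) (n := n) (by omega) hbig' ⟨0, by omega⟩
    exact ⟨f, hf, hfs⟩
  · rintro w ⟨f, hf, rfl⟩
    exact hmin f hf
  · have h1 := upper6 hk6 hn (cG m n) hcon hmin
    have h2 := cG_size (m := m) (n := n) (by omega) hbig'
    have e1 : n - (m + 2) + 2 = n - m := by omega
    have e2 : m + 2 - 2 = m := by omega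
    rw [e1, e2] at h1 ⊢
    generalize (n - m) ^ 2 = X at *
    omega
  · rintro e ⟨G, hG, -, hr, rfl⟩
    exact upper6 hk6 hn G hG fun f hf => hr.2 ⟨f, hf, rfl⟩

end Pool.Agent.Results.MP_cc4a3b_co.AllK
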